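import Mathlib

/-!
# Cycles modulo numerical equivalence on abelian varieties

The data and their known properties, in several structures.
-/

set_option autoImplicit false

namespace Pool.Agent.L0h15.HS

/-- a commutative algebra over `ℚ` -/
structure QA where
  /-- the elements -/
  carrier : Type
  [ring : CommRing carrier]
  [alg : Algebra ℚ carrier]

attribute [instance] QA.ring QA.alg

instance : CoeSort QA Type := ⟨QA.carrier⟩

/-- homomorphisms of algebras -/
def Hom (R S : QA) : Type := R →ₐ[ℚ] S

/-- the value of a homomorphism -/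
def ap {R S : QA} (f : Hom R S) (x : R) : S := (show R →ₐ[ℚ] S from f) x

/-- linear forms -/
def Form (R : QA) : Type := R →ₗ[ℚ] ℚ

/-- the value of a linear form -/
def val {R : QA} (f : Form R) (x : R) : ℚ := (show R →ₗ[ℚ] ℚ from f) x

/-- the subspaces -/
def Sub (R : QA) : Type := Submodule ℚ R

/-- the element `x` is in the subspace `S` -/
def inn {R : QA} (S : Sub R) (x : R) : Prop := x ∈ (show Submodule ℚ R from S)

/-- the unit element -/
def one (R : QA) : R := (1 : R)

/-- the product -/
def mul {R : QA} (x y : R) : R := x * y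

/-- the sum -/
def add {R : QA} (x y : R) : R := x + y

/-- the power -/
def pw {R : QA} (x : R) (n : ℕ) : R := x ^ n

/-- the class is zero -/
def IsZero {R : QA} (x : R) : Prop := x = 0

/-- the number `(-1)^n q` is positive -/
def Pos (n : ℕ) (q : ℚ) : Prop := (n % 2 = 0 → 0 < q) ∧ (n % 2 = 1 → q < 0)

/-- the data -/
structure Cycles where
  /-- the abelian varieties over the field -/
  Var : Type
  /-- the dimension -/
  dim : Var → ℕ
  /-- the ring of cycles modulo numerical equivalence with rational coefficients -/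
  Z : Var → QA
  /-- the subspaces `Z^n(A)` -/
  gr : ∀ A, ℕ → Sub (Z A)
  /-- the degree of the component of codimension `dim A` -/
  degree : ∀ A, Form (Z A)
  /-- the classes of polarizations -/
  Pol : ∀ A, Z A → Prop
  /-- the product of abelian varieties -/
  prod : Var → Var → Var
  /-- the inverse image under the first projection -/
  fst : ∀ A B, Hom (Z A) (Z (prod A B))
  /-- the inverse image under the second projection -/
  snd : ∀ A B, Hom (Z B) (Z (prod A B))

namespace Cycles

variable (D : Cycles)

/-- the class `x` on `A` is of codimension `n` -/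
def Cod (A : D.Var) (n : ℕ) (x : D.Z A) : Prop := inn (D.gr A n) x

/-- the degree of `x` -/
def deg (A : D.Var) (x : D.Z A) : ℚ := val (D.degree A) x

/-- the inverse image of `x` on `A × B` -/
def p1 (A B : D.Var) (x : D.Z A) : D.Z (D.prod A B) := ap (D.fst A B) x

/-- the inverse image of `y` on `A × B` -/
def p2 (A B : D.Var) (y : D.Z B) : D.Z (D.prod A B) := ap (D.snd A B) y

/-- known properties of the rings of cycles -/
structure Rings : Prop where
  one_mem : ∀ A, D.Cod A 0 (one (D.Z A))
  mul_mem : ∀ A m n (x y : D.Z A), D.Cod A m x → D.Cod A n y → D.Cod A (m + n) (mul x y)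
  deg_eq_zero : ∀ A n (x : D.Z A), D.Cod A n x → n ≠ D.dim A → D.deg A x = 0
  /-- numerically trivial classes are zero -/
  num : ∀ A n (x : D.Z A), D.Cod A n x →
    (∀ m (y : D.Z A), D.Cod A m y → n + m = D.dim A → D.deg A (mul x y) = 0) → IsZero x
  pol_mem : ∀ A (L : D.Z A), D.Pol A L → D.Cod A 1 L
  pol_pos : ∀ A (L : D.Z A), D.Pol A L → 0 < D.deg A (pw L (D.dim A))

/-- known properties of products -/
structure Products : Prop where
  dim_prod : ∀ A B, D.dim (D.prod A B) = D.dim A + D.dim B
  fst_mem : ∀ A B n (x : D.Z A), D.Cod A n x → D.Cod (D.prod A B) n (D.p1 A B x)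
  snd_mem : ∀ A B n (x : D.Z B), D.Cod B n x → D.Cod (D.prod A B) n (D.p2 A B x)
  deg_prod : ∀ A B (x : D.Z A) (y : D.Z B),
    D.deg (D.prod A B) (mul (D.p1 A B x) (D.p2 A B y)) = D.deg A x * D.deg B y
  /-- product polarizations -/
  pol_prod : ∀ A B (L : D.Z A) (M : D.Z B), D.Pol A L → D.Pol B M →
    D.Pol (D.prod A B) (add (D.p1 A B L) (D.p2 A B M))
  /-- powers of an elliptic curve -/
  exists_power : ∀ k, ∃ (B : D.Var) (M : D.Z B), D.dim B = k ∧ D.Pol B M
  /-- the product of an elliptic curve with itself, and the difference of the classes of the two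
  factors -/
  exists_surface : ∃ (B : D.Var) (M b : D.Z B), D.dim B = 2 ∧ D.Pol B M ∧ D.Cod B 1 b ∧
    IsZero (mul M b) ∧ D.deg B (mul b b) < 0

/-- the numerical Hodge standard conjecture for `A`, the polarization `L` and the codimension `n` (with
`2 n ≤ dim A`) -/
def Conj (A : D.Var) (L : D.Z A) (n : ℕ) : Prop :=
  ∀ a : D.Z A, D.Cod A n a → IsZero (mul a (pw L (D.dim A - 2 * n + 1))) → ¬ IsZero a →
    Pos n (D.deg A (mul (mul a a) (pw L (D.dim A - 2 * n))))

end Cycles

end Pool.Agent.L0h15.HS
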