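import Pool.Agent.L0h15.HS.Defs

/-!
# Reduction of the Hodge standard conjecture to the middle codimension
-/

set_option autoImplicit false

namespace Pool.Agent.L0h15.HS

namespace Theory

variable {T : Theory}

theorem pow_mem {A : T.Var} {L : T.Z A} (hL : L ∈ T.Pol A) (i : ℕ) : L ^ i ∈ T.gr A i := by
  induction i with
  | zero => rw [pow_zero]; exact T.one_mem A
  | succ i ih => rw [pow_succ]; exact T.mul_mem A i 1 _ _ ih (T.pol_mem A L hL)

/-- classes of large codimension are zero -/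
theorem eq_zero_of_lt {A : T.Var} {n : ℕ} {x : T.Z A} (hx : x ∈ T.gr A n) (h : T.dim A < n) :
    x = 0 := T.num A n x hx fun m y _ hm => by omega

/-- the reduction of the conjecture for `A` and `n` to the middle codimension for `A × B`, where `B` is
of dimension `dim A - 2 n` -/
theorem conj_of_prod {A B : T.Var} {L : T.Z A} {M : T.Z B} {n k : ℕ} (hL : L ∈ T.Pol A)
    (hM : M ∈ T.Pol B) (hk : T.dim A = 2 * n + k) (hB : T.dim B = k)
    (h : T.Conj (T.prod A B) (T.fst A B L + T.snd A B M) (n + k)) : T.Conj A L n := by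
  intro a ha haL hne
  have hkk : T.dim A - 2 * n = k := by omega
  rw [hkk] at haL ⊢
  set x := T.fst A B L with hx
  set y := T.snd A B M with hy
  let γ : T.Z (T.prod A B) := T.fst A B a * ∑ i ∈ Finset.range (k + 1), (-x) ^ i * y ^ (k - i)
  have hγ : γ = ∑ i ∈ Finset.range (k + 1),
      ((-1 : ℚ) ^ i) • (T.fst A B (a * L ^ i) * T.snd A B (M ^ (k - i))) := by
    change T.fst A B a * _ = _
    rw [Finset.mul_sum]
    refine Finset.sum_congr rfl fun i _ => ?_
    rw [neg_pow, map_mul, map_pow, map_pow, ← hx, ← hy, Algebra.smul_def, map_pow, map_neg, map_one]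
    ring
  have hterm : ∀ i ∈ Finset.range (k + 1),
      T.fst A B (a * L ^ i) * T.snd A B (M ^ (k - i)) ∈ T.gr (T.prod A B) (n + k) := by
    intro i hi
    have h1 : n + k = (n + i) + (k - i) := by
      have := Finset.mem_range.1 hi
      omega
    rw [h1]
    exact T.mul_mem _ _ _ _ _ (T.fst_mem _ _ _ _ (T.mul_mem A n i _ _ ha (pow_mem hL i)))
      (T.snd_mem _ _ _ _ (pow_mem hM _))
  have hmem : γ ∈ T.gr (T.prod A B) (n + k) := by
    rw [hγ]
    exact Submodule.sum_mem _ fun i hi => Submodule.smul_mem _ _ (hterm i hi)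
  -- `γ` is primitive
  have hMk : M ^ (k + 1) = 0 := eq_zero_of_lt (pow_mem hM _) (by omega)
  have hprim : γ * (x + y) = 0 := by
    have h1 : (∑ i ∈ Finset.range (k + 1), (-x) ^ i * y ^ (k - i)) * (-x - y) =
        (-x) ^ (k + 1) - y ^ (k + 1) := by
      have h2 := geom_sum₂_mul (-x) y (k + 1)
      simpa using h2
    have h3 : γ * (x + y) = -(T.fst A B a * ((-x) ^ (k + 1) - y ^ (k + 1))) := by
      rw [← h1]
      ring
    have h4 : T.fst A B a * (-x) ^ (k + 1) = 0 := by
      rw [neg_pow, hx, ← map_pow, mul_left_comm, ← map_mul, haL, map_zero, mul_zero]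
    have h5 : y ^ (k + 1) = 0 := by rw [hy, ← map_pow, hMk, map_zero]
    rw [h3, h5, sub_zero, h4, neg_zero]
  -- `γ` is not zero
  have hpos : 0 < T.deg B (M ^ k) := by
    have := T.pol_pos B M hM
    rwa [hB] at this
  have hγ0 : γ ≠ 0 := by
    intro h0
    refine hne (T.num A n a ha fun m b hb hm => ?_)
    have h1 : T.deg (T.prod A B) (γ * T.fst A B b) = 0 := by rw [h0, zero_mul, map_zero]
    rw [hγ, Finset.sum_mul, map_sum, Finset.sum_eq_single 0] at h1
    · rw [pow_zero, one_smul, pow_zero, mul_one, Nat.sub_zero] at h1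
      have h2 : T.fst A B a * T.snd A B (M ^ k) * T.fst A B b =
          T.fst A B (a * b) * T.snd A B (M ^ k) := by rw [map_mul]; ring
      rw [h2, T.deg_prod] at h1
      exact (mul_eq_zero.1 h1).resolve_right hpos.ne'
    · intro i _ hi
      have h2 : ((-1 : ℚ) ^ i) • (T.fst A B (a * L ^ i) * T.snd A B (M ^ (k - i))) * T.fst A B b =
          ((-1 : ℚ) ^ i) • (T.fst A B (a * L ^ i * b) * T.snd A B (M ^ (k - i))) := by
        rw [smul_mul_assoc, map_mul _ (a * L ^ i) b]
        congr 1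
        ring
      rw [h2, map_smul, T.deg_prod, T.deg_eq_zero A (n + i + m) _
        (T.mul_mem A _ _ _ _ (T.mul_mem A n i _ _ ha (pow_mem hL i)) hb) (by omega), zero_mul,
        smul_zero]
    · intro h2
      exact absurd (Finset.mem_range.2 (Nat.succ_pos k)) h2
  -- the intersection number
  have hsq : T.deg (T.prod A B) (γ * γ) =
      (-1) ^ k * (k + 1) * (T.deg A (a * a * L ^ k) * T.deg B (M ^ k)) := by
    rw [hγ, Finset.sum_mul_sum, map_sum]
    have h1 : ∀ i ∈ Finset.range (k + 1), T.deg (T.prod A B) (∑ j ∈ Finset.range (k + 1),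
        ((-1 : ℚ) ^ i) • (T.fst A B (a * L ^ i) * T.snd A B (M ^ (k - i))) *
          ((-1 : ℚ) ^ j) • (T.fst A B (a * L ^ j) * T.snd A B (M ^ (k - j)))) =
        (-1) ^ k * (T.deg A (a * a * L ^ k) * T.deg B (M ^ k)) := by
      intro i hi
      have hi' := Finset.mem_range.1 hi
      have h2 : ∀ j ∈ Finset.range (k + 1),
          T.deg (T.prod A B) (((-1 : ℚ) ^ i) • (T.fst A B (a * L ^ i) * T.snd A B (M ^ (k - i))) *
          ((-1 : ℚ) ^ j) • (T.fst A B (a * L ^ j) * T.snd A B (M ^ (k - j)))) =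
          (-1) ^ (i + j) * (T.deg A (a * a * L ^ (i + j)) * T.deg B (M ^ (k - i + (k - j)))) := by
        intro j _
        have h3 : ((-1 : ℚ) ^ i) • (T.fst A B (a * L ^ i) * T.snd A B (M ^ (k - i))) *
            ((-1 : ℚ) ^ j) • (T.fst A B (a * L ^ j) * T.snd A B (M ^ (k - j))) =
            ((-1 : ℚ) ^ (i + j)) • (T.fst A B (a * a * L ^ (i + j)) *
              T.snd A B (M ^ (k - i + (k - j)))) := by
          rw [smul_mul_smul_comm, ← pow_add]
          congr 1
          simp only [map_mul, map_pow, pow_add]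
          ring
        rw [h3, map_smul, T.deg_prod, smul_eq_mul]
      rw [map_sum, Finset.sum_congr rfl h2, Finset.sum_eq_single (k - i)]
      · have h3 : i + (k - i) = k := by omega
        have h4 : k - i + (k - (k - i)) = k := by omega
        rw [h3, h4]
      · intro j hj hne'
        have hj' := Finset.mem_range.1 hj
        rw [T.deg_eq_zero B (k - i + (k - j)) _ (pow_mem hM _) (by omega), mul_zero, mul_zero]
      · intro h3
        exact absurd (Finset.mem_range.2 (by omega)) h3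
    rw [Finset.sum_congr rfl h1, Finset.sum_const, Finset.card_range, nsmul_eq_mul]
    push_cast
    ring
  have hdim : T.dim (T.prod A B) - 2 * (n + k) = 0 := by
    rw [T.dim_prod, hB]
    omega
  have hfin := h γ hmem (by rw [hdim, zero_add, pow_one]; exact hprim) hγ0
  rw [hdim, pow_zero, mul_one, hsq] at hfin
  have h1 : (-1 : ℚ) ^ (n + k) * ((-1) ^ k * (k + 1) * (T.deg A (a * a * L ^ k) * T.deg B (M ^ k))) =
      ((k + 1) * T.deg B (M ^ k)) * ((-1) ^ n * T.deg A (a * a * L ^ k)) := by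
    have h2 : (-1 : ℚ) ^ (n + k) * (-1) ^ k = (-1) ^ n := by
      rw [pow_add, mul_assoc, ← mul_pow]
      norm_num
    calc (-1 : ℚ) ^ (n + k) * ((-1) ^ k * (k + 1) * (T.deg A (a * a * L ^ k) * T.deg B (M ^ k)))
        = ((-1 : ℚ) ^ (n + k) * (-1) ^ k) * ((k + 1) * (T.deg A (a * a * L ^ k) *
          T.deg B (M ^ k))) := by ring
      _ = _ := by rw [h2]; ring
  rw [h1] at hfin
  exact (mul_pos_iff_of_pos_left (by positivity)).1 hfin

/-- the middle codimension `n` follows from the middle codimension `n + 1` -/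
theorem conj_succ {A B : T.Var} {L : T.Z A} {M β : T.Z B} {n : ℕ} (hA : T.dim A = 2 * n)
    (hB : T.dim B = 2) (hβ : β ∈ T.gr B 1) (hMβ : M * β = 0)
    (hneg : T.deg B (β * β) < 0)
    (h : T.Conj (T.prod A B) (T.fst A B L + T.snd A B M) (n + 1)) : T.Conj A L n := by
  intro a ha haL hne
  have h0 : T.dim A - 2 * n = 0 := by omega
  rw [h0, zero_add, pow_one] at haL
  rw [h0, pow_zero, mul_one]
  have hdim : T.dim (T.prod A B) - 2 * (n + 1) = 0 := by
    rw [T.dim_prod, hB]
    omega
  have hmem : T.fst A B a * T.snd A B β ∈ T.gr (T.prod A B) (n + 1) :=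
    T.mul_mem _ _ _ _ _ (T.fst_mem _ _ _ _ ha) (T.snd_mem _ _ _ _ hβ)
  have hprim : T.fst A B a * T.snd A B β * (T.fst A B L + T.snd A B M) = 0 := by
    have h1 : T.fst A B a * T.snd A B β * (T.fst A B L + T.snd A B M) =
        T.fst A B (a * L) * T.snd A B β + T.fst A B a * T.snd A B (M * β) := by
      rw [map_mul, map_mul]
      ring
    rw [h1, haL, hMβ, map_zero, map_zero, zero_mul, mul_zero, add_zero]
  have hne' : T.fst A B a * T.snd A B β ≠ 0 := by
    intro h1
    refine hne (T.num A n a ha fun m b hb _ => ?_)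
    have h2 : T.deg (T.prod A B) (T.fst A B a * T.snd A B β * (T.fst A B b * T.snd A B β)) = 0 := by
      rw [h1, zero_mul, map_zero]
    have h3 : T.fst A B a * T.snd A B β * (T.fst A B b * T.snd A B β) =
        T.fst A B (a * b) * T.snd A B (β * β) := by
      rw [map_mul, map_mul]
      ring
    rw [h3, T.deg_prod] at h2
    exact (mul_eq_zero.1 h2).resolve_right hneg.ne
  have h1 := h _ hmem (by rw [hdim, zero_add, pow_one]; exact hprim) hne'
  rw [hdim, pow_zero, mul_one] at h1
  have h3 : T.fst A B a * T.snd A B β * (T.fst A B a * T.snd A B β) =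
      T.fst A B (a * a) * T.snd A B (β * β) := by
    rw [map_mul, map_mul]
    ring
  rw [h3, T.deg_prod] at h1
  have h4 : (-1 : ℚ) ^ (n + 1) * (T.deg A (a * a) * T.deg B (β * β)) =
      (-T.deg B (β * β)) * ((-1) ^ n * T.deg A (a * a)) := by
    rw [pow_succ]
    ring
  rw [h4] at h1
  exact (mul_pos_iff_of_pos_left (by linarith)).1 h1

/-- all codimensions from the middle one -/
theorem conj_of_middle (h : ∀ A L n, L ∈ T.Pol A → T.dim A = 2 * n → T.Conj A L n) (A : T.Var)
    (L : T.Z A) (n : ℕ) (hL : L ∈ T.Pol A) (hn : 2 * n ≤ T.dim A) : T.Conj A L n := by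
  obtain ⟨B, M, hB, hM⟩ := T.exists_power (T.dim A - 2 * n)
  refine conj_of_prod (k := T.dim A - 2 * n) hL hM (by omega) hB ?_
  refine h _ _ _ (T.pol_prod A B L M hL hM) ?_
  rw [T.dim_prod, hB]
  omega

/-- the middle codimension from that in dimensions divisible by four -/
theorem middle_of_four (h : ∀ A L m, L ∈ T.Pol A → T.dim A = 4 * m → T.Conj A L (2 * m))
    (A : T.Var) (L : T.Z A) (n : ℕ) (hL : L ∈ T.Pol A) (hn : T.dim A = 2 * n) : T.Conj A L n := by
  rcases Nat.even_or_odd' n with ⟨m, rfl | rfl⟩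
  · exact h A L m hL (by omega)
  · obtain ⟨B, M, β, hB, hM, hβ, hMβ, hneg⟩ := T.exists_surface
    refine conj_succ hn hB hβ hMβ hneg ?_
    have h1 := h (T.prod A B) _ (m + 1) (T.pol_prod A B L M hL hM) (by
      rw [T.dim_prod, hB]
      omega)
    have h2 : 2 * (m + 1) = 2 * m + 1 + 1 := by ring
    rwa [h2] at h1

theorem conj_iff_four {A : T.Var} {L : T.Z A} {m : ℕ} (hm : T.dim A = 4 * m) :
    T.Conj A L (2 * m) ↔ ∀ a ∈ T.gr A (2 * m), a * L = 0 → a ≠ 0 → 0 < T.deg A (a * a) := by
  have h0 : T.dim A - 2 * (2 * m) = 0 := by omega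
  unfold Conj
  rw [h0]
  simp only [zero_add, pow_one, pow_zero, mul_one, pow_mul, neg_one_sq, one_pow, one_mul]

/-- all codimensions, from the positivity of squares in dimensions divisible by four -/
theorem conj_of_four (h : ∀ (A : T.Var) (L : T.Z A) (m : ℕ), L ∈ T.Pol A → T.dim A = 4 * m →
    ∀ a ∈ T.gr A (2 * m), a * L = 0 → a ≠ 0 → 0 < T.deg A (a * a)) (A : T.Var)
    (L : T.Z A) (n : ℕ) (hL : L ∈ T.Pol A) (hn : 2 * n ≤ T.dim A) : T.Conj A L n :=
  conj_of_middle (fun A L n hL hn =>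
    middle_of_four (fun A L m hL hm => (conj_iff_four hm).2 (h A L m hL hm)) A L n hL hn) A L n hL hn

end Theory

end Pool.Agent.L0h15.HS
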