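import Pool.Agent.L0h15.HS.Ax
import Pool.Agent.L0h15.HS.Main

/-!
# Comparison of the two presentations of the data
-/

set_option autoImplicit false

namespace Pool.Agent.L0h15.HS

theorem pos_iff (n : ℕ) (q : ℚ) : Pos n q ↔ 0 < (-1) ^ n * q := by
  unfold Pos
  rcases Nat.even_or_odd n with h | h
  · have h2 : n % 2 = 0 := Nat.even_iff.1 h
    simp [h.neg_one_pow, h2]
  · have h2 : n % 2 = 1 := Nat.odd_iff.1 h
    simp [h.neg_one_pow, h2]

namespace Cycles

variable {D : Cycles}

/-- the data in one structure -/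
def toTheory (hR : D.Rings) (hP : D.Products) : Theory where
  Var := D.Var
  dim := D.dim
  Z := fun A => (D.Z A).carrier
  ring := fun A => (D.Z A).ring
  alg := fun A => (D.Z A).alg
  gr := D.gr
  deg := D.degree
  Pol := fun A => {L | D.Pol A L}
  one_mem := hR.one_mem
  mul_mem := hR.mul_mem
  deg_eq_zero := hR.deg_eq_zero
  num := hR.num
  pol_mem := hR.pol_mem
  pol_pos := hR.pol_pos
  prod := D.prod
  dim_prod := hP.dim_prod
  fst := D.fst
  snd := D.snd
  fst_mem := hP.fst_mem
  snd_mem := hP.snd_mem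
  deg_prod := hP.deg_prod
  pol_prod := hP.pol_prod
  exists_power := hP.exists_power
  exists_surface := hP.exists_surface

theorem conj_iff (hR : D.Rings) (hP : D.Products) (A : D.Var) (L : D.Z A) (n : ℕ) :
    D.Conj A L n ↔ (toTheory hR hP).Conj A L n := by
  unfold Conj
  simp only [pos_iff]
  exact Iff.rfl

end Cycles

end Pool.Agent.L0h15.HS
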