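import Mathlib

/-!
# Cycles modulo numerical equivalence on abelian varieties
-/

set_option autoImplicit false

namespace Pool.Agent.L0h15.HS

/-- The rings of cycles modulo numerical equivalence, with rational coefficients, of the abelian varieties
over a field, with known properties. -/
structure Theory where
  /-- the abelian varieties over the field -/
  Var : Type
  /-- the dimension -/
  dim : Var → ℕ
  /-- the ring of cycles modulo numerical equivalence, the sum of the groups `Z^n(A)` -/
  Z : Var → Type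
  [ring : ∀ A, CommRing (Z A)]
  [alg : ∀ A, Algebra ℚ (Z A)]
  /-- the subspace `Z^n(A)` -/
  gr : ∀ A, ℕ → Submodule ℚ (Z A)
  /-- the degree of the component of codimension `dim A` -/
  deg : ∀ A, Z A →ₗ[ℚ] ℚ
  /-- the classes of polarizations -/
  Pol : ∀ A, Set (Z A)
  one_mem : ∀ A, 1 ∈ gr A 0
  mul_mem : ∀ A m n x y, x ∈ gr A m → y ∈ gr A n → x * y ∈ gr A (m + n)
  deg_eq_zero : ∀ A n x, x ∈ gr A n → n ≠ dim A → deg A x = 0
  /-- numerically trivial classes are zero -/
  num : ∀ A n x, x ∈ gr A n → (∀ m y, y ∈ gr A m → n + m = dim A → deg A (x * y) = 0) → x = 0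
  pol_mem : ∀ A L, L ∈ Pol A → L ∈ gr A 1
  pol_pos : ∀ A L, L ∈ Pol A → 0 < deg A (L ^ dim A)
  /-- the product of abelian varieties -/
  prod : Var → Var → Var
  dim_prod : ∀ A B, dim (prod A B) = dim A + dim B
  /-- the inverse images under the projections -/
  fst : ∀ A B, Z A →ₐ[ℚ] Z (prod A B)
  snd : ∀ A B, Z B →ₐ[ℚ] Z (prod A B)
  fst_mem : ∀ A B n x, x ∈ gr A n → fst A B x ∈ gr (prod A B) n
  snd_mem : ∀ A B n x, x ∈ gr B n → snd A B x ∈ gr (prod A B) n
  deg_prod : ∀ A B x y, deg (prod A B) (fst A B x * snd A B y) = deg A x * deg B y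
  /-- product polarizations -/
  pol_prod : ∀ A B L M, L ∈ Pol A → M ∈ Pol B → fst A B L + snd A B M ∈ Pol (prod A B)
  /-- powers of an elliptic curve -/
  exists_power : ∀ k, ∃ B M, dim B = k ∧ M ∈ Pol B
  /-- the product of an elliptic curve with itself, and the difference of the classes of the two
  factors -/
  exists_surface : ∃ B M β, dim B = 2 ∧ M ∈ Pol B ∧ β ∈ gr B 1 ∧ M * β = 0 ∧ deg B (β * β) < 0

attribute [instance] Theory.ring Theory.alg

namespace Theory

variable (T : Theory)

/-- the numerical Hodge standard conjecture for `A`, the polarization `L` and the codimension `n` (with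
`2 n ≤ dim A`) -/
def Conj (A : T.Var) (L : T.Z A) (n : ℕ) : Prop :=
  ∀ a ∈ T.gr A n, a * L ^ (T.dim A - 2 * n + 1) = 0 → a ≠ 0 →
    0 < (-1) ^ n * T.deg A (a * a * L ^ (T.dim A - 2 * n))

end Theory

end Pool.Agent.L0h15.HS
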